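import Mathlib
import Pool.Agent.H84.GirCol

set_option autoImplicit false

namespace Pool.Agent.Results.MP_4a087e_lc.Lower

open Pool.Agent.H84.GirCol Finset

/-- `w 0, …, w j` is a `π`-increasing path of `G`. -/
def IncPath {V : Type} (G : SimpleGraph V) (π : V → ℝ) (j : ℕ) (w : ℕ → V) : Prop :=
  ∀ i < j, G.Adj (w i) (w (i + 1)) ∧ π (w i) < π (w (i + 1))

/-- `π` is a `d`-diameter ordering of `G`. -/
def IsDiamOrdering {V : Type} (G : SimpleGraph V) (π : V → ℝ) (d : ℕ) : Prop :=
  Function.Injective π ∧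
    ∀ j w, IncPath G π j w → ∀ a ≤ j, ∀ b ≤ j, G.edist (w a) (w b) ≤ d

/-- The least `d` such that every graph on `n` vertices has a `d`-diameter ordering. -/
noncomputable def D (n : ℕ) : ℕ :=
  sInf {d | ∀ G : SimpleGraph (Fin n), ∃ π : Fin n → ℝ, IsDiamOrdering G π d}

lemma exists_graph' (K L : ℕ) : ∃ (E : Set (Fin (2 * (K + 1) * (2 * (32 * (K + 1) ^ 3 + 1) ^ L)) ×
    Fin (2 * (K + 1) * (2 * (32 * (K + 1) ^ 3 + 1) ^ L)))), Gir E L ∧
    ∀ c : Fin (2 * (K + 1) * (2 * (32 * (K + 1) ^ 3 + 1) ^ L)) → Fin (K + 1),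
      ∃ e ∈ E, c e.1 = c e.2 := by
  classical
  generalize hk : K + 1 = k
  have k0 : 0 < k := by omega
  set D := 32 * k ^ 3 with hD
  set q := 2 * (D + 1) ^ L with hq
  set n := 2 * k * q with hn
  have h1 : ∀ t ≤ 8 * k ^ 2 * (k * n), ∃ E : Finset (Fin n × Fin n), E.card ≤ t ∧
      Gir (E : Set (Fin n × Fin n)) L ∧ (∀ v, dg E v ≤ D) ∧
      (8 * k ^ 2) ^ t * (sv k E).card ≤ (8 * k ^ 2 - 1) ^ t * k ^ n := by
    intro t
    induction t with
    | zero =>
      exact fun _ => ⟨∅, le_rfl, by simp [Gir], by simp [dg], by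
        simpa using (card_le_univ (sv k (∅ : Finset (Fin n × Fin n))))⟩
    | succ t ih =>
      intro ht
      obtain ⟨E, e1, e2, e3, e4⟩ := ih (by omega)
      obtain ⟨E', f1, f2, f3, f4⟩ := step (q := q) k0 (by simp [hn]) le_rfl E e2 e3
        ((Nat.mul_le_mul_left 2 (e1.trans ((Nat.le_succ t).trans ht))).trans_eq (by
          rw [hn, hD]; ring)) (by positivity)
      refine ⟨E', by omega, f2, f3, ?_⟩
      generalize 8 * k ^ 2 = a at *
      rw [pow_succ, mul_assoc, pow_succ', mul_assoc]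
      refine (Nat.mul_le_mul_left _ f4).trans ?_
      rw [mul_left_comm]
      exact Nat.mul_le_mul_left _ e4
  obtain ⟨E, -, e2, -, e4⟩ := h1 _ le_rfl
  refine ⟨E, e2, fun c => ?_⟩
  by_contra hc
  push Not at hc
  have h2 : 1 ≤ (sv k E).card := card_pos.2 ⟨c, mem_filter.2 ⟨mem_univ _, hc⟩⟩
  obtain ⟨m, hm⟩ := Nat.exists_eq_succ_of_ne_zero (show 8 * k ^ 2 ≠ 0 by positivity)
  have h3 : 2 * m ^ (m + 1) ≤ (m + 1) ^ (m + 1) := by
    rcases Nat.eq_zero_or_pos m with rfl | m0
    · omega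
    · have a := one_add_mul_le_pow (a := (1 / m : ℝ)) (by
        have : (0 : ℝ) ≤ 1 / m := by positivity
        linarith) (m + 1)
      have m0' : (0 : ℝ) < m := by exact_mod_cast m0
      have b : (2 : ℝ) ≤ 1 + ((m + 1 : ℕ) : ℝ) * (1 / m) := by
        push_cast
        rw [add_mul, mul_one_div_cancel m0'.ne']
        have : (0 : ℝ) ≤ 1 * (1 / m) := by positivity
        linarith
      have c : (1 + 1 / m : ℝ) = (m + 1) / m := by field_simp
      have d := b.trans a
      rw [c, div_pow, le_div_iff₀ (by positivity)] at d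
      exact_mod_cast d
  rw [hm, Nat.succ_sub_one, pow_mul, pow_mul m] at e4
  have h4 := Nat.pow_le_pow_left h3 (k * n)
  have h5 : k ^ n < (2 ^ k) ^ n := Nat.pow_lt_pow_left Nat.lt_two_pow_self (by positivity)
  rw [mul_pow, pow_mul 2] at h4
  have h6 := h4.trans ((Nat.le_mul_of_pos_right _ h2).trans e4)
  rw [mul_comm] at h6
  have m0 : 0 < m := by
    have : 1 ≤ k ^ 2 := Nat.one_le_pow _ _ k0
    omega
  have := Nat.le_of_mul_le_mul_left h6 (by positivity)
  omega

lemma wk_pull {A B : Type} (f : A → B) (hf : Function.Injective f) (E : Set (A × A))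
    {j : ℕ} {u v : B} (h : Wk (Prod.map f f '' E) j u v) :
    ∀ a, u = f a → ∃ b, v = f b ∧ Wk E j a b := by
  induction h with
  | refl => exact fun a ha => ⟨a, ha, .refl _ _⟩
  | step e _ ih =>
    intro a ha
    rcases e with ⟨⟨x, y⟩, hxy, he⟩ | ⟨⟨x, y⟩, hxy, he⟩
    · simp only [Prod.map, Prod.mk.injEq] at he
      obtain ⟨b, hb, hw⟩ := ih y he.2.symm
      have : x = a := hf (he.1.trans ha)
      exact ⟨b, hb, .step (Or.inl (this ▸ hxy)) hw⟩
    · simp only [Prod.map, Prod.mk.injEq] at he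
      obtain ⟨b, hb, hw⟩ := ih x he.1.symm
      have : y = a := hf (he.2.trans ha)
      exact ⟨b, hb, .step (Or.inr (this ▸ hxy)) hw⟩

lemma gir_push {A B : Type} (f : A → B) (hf : Function.Injective f) (E : Set (A × A)) {L : ℕ}
    (h : Gir E L) : Gir (Prod.map f f '' E) L := by
  rintro _ ⟨e, he, rfl⟩ hw
  have hs : (Prod.map f f '' E) \ {Prod.map f f e} ⊆ Prod.map f f '' (E \ {e}) := by
    rintro _ ⟨⟨x, hx, rfl⟩, hne⟩
    exact ⟨x, ⟨hx, fun hxe => hne (by rw [Set.mem_singleton_iff.1 hxe]; rfl)⟩, rfl⟩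
  obtain ⟨b, hb, hw'⟩ := wk_pull f hf _ (hw.sub hs) e.1 rfl
  have : b = e.2 := (hf hb).symm
  exact h e he (this ▸ hw')

lemma wk_fin {V : Type} {E : Set (V × V)} {j : ℕ} {u v : V} (h : Wk E j u v) :
    ∃ F : Finset (V × V), F.card ≤ j ∧ (F : Set (V × V)) ⊆ E ∧ Wk (F : Set (V × V)) j u v := by
  classical
  induction h with
  | refl => exact ⟨∅, by simp, by simp, .refl _ _⟩
  | @step k u w v e _ ih =>
    obtain ⟨F, h1, h2, h3⟩ := ih
    rcases e with e | e
    · refine ⟨insert (u, w) F, (card_insert_le _ _).trans (by omega), ?_, ?_⟩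
      · rw [coe_insert]; exact Set.insert_subset e h2
      · exact .step (Or.inl (by simp)) (h3.sub (by rw [coe_insert]; exact Set.subset_insert _ _))
    · refine ⟨insert (w, u) F, (card_insert_le _ _).trans (by omega), ?_, ?_⟩
      · rw [coe_insert]; exact Set.insert_subset e h2
      · exact .step (Or.inr (by simp)) (h3.sub (by rw [coe_insert]; exact Set.subset_insert _ _))

lemma wk_of_walk {V : Type} {E : Set (V × V)} {u v : V}
    (p : (SimpleGraph.fromRel (fun a b => (a, b) ∈ E)).Walk u v) : Wk E p.length u v := by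
  induction p with
  | nil => exact .refl _ _
  | cons h _ ih => exact .step ((SimpleGraph.fromRel_adj _ _ _).1 h).2 ih

lemma wk_seg {V : Type} {E : Set (V × V)} (w : ℕ → V) (a : ℕ) :
    ∀ t, (∀ i, a ≤ i → i < a + t → (w i, w (i + 1)) ∈ E ∨ (w (i + 1), w i) ∈ E) →
      Wk E t (w a) (w (a + t)) := by
  intro t
  induction t with
  | zero => exact fun _ => .refl _ _
  | succ t ih =>
    intro h
    have h1 := ih (fun i h1 h2 => h i h1 (by omega))
    have h2 : Wk E 1 (w (a + t)) (w (a + t + 1)) :=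
      .step (h (a + t) (by omega) (by omega)) (.refl 0 _)
    exact h1.trans h2

lemma inc_lt {V : Type} {G : SimpleGraph V} {π : V → ℝ} {j : ℕ} {w : ℕ → V}
    (h : IncPath G π j w) : ∀ b ≤ j, ∀ a < b, π (w a) < π (w b) := by
  intro b
  induction b with
  | zero => intro _ a ha; omega
  | succ b ih =>
    intro hb a ha
    rcases Nat.lt_succ_iff_lt_or_eq.1 ha with h1 | rfl
    · exact (ih (by omega) a h1).trans (h b (by omega)).2
    · exact (h a (by omega)).2

lemma geod {V : Type} {E : Set (V × V)} {k : ℕ} (hG : Gir E (2 * k)) {π : V → ℝ} {w : ℕ → V}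
    (h : IncPath (SimpleGraph.fromRel (fun a b => (a, b) ∈ E)) π k w) {j : ℕ} (hj : j < k) :
    ¬ Wk E j (w 0) (w k) := by
  classical
  intro hw
  obtain ⟨F, h1, h2, h3⟩ := wk_fin hw
  have hE : ∀ i < k, (w i, w (i + 1)) ∈ E ∨ (w (i + 1), w i) ∈ E := fun i hi =>
    ((SimpleGraph.fromRel_adj _ _ _).1 (h i hi).1).2
  let e : ℕ → V × V := fun i => if (w i, w (i + 1)) ∈ E then (w i, w (i + 1)) else (w (i + 1), w i)
  have he : ∀ i, e i = (w i, w (i + 1)) ∨ e i = (w (i + 1), w i) := by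
    intro i; simp only [e]; split_ifs <;> simp
  have heE : ∀ i < k, e i ∈ E := by
    intro i hi; simp only [e]; split_ifs with hh
    · exact hh
    · exact (hE i hi).resolve_left hh
  have hinj : ∀ a ≤ k, ∀ b ≤ k, w a = w b → a = b := by
    intro a ha b hb hab
    rcases lt_trichotomy a b with h' | h' | h'
    · have := inc_lt h b hb a h'; rw [hab] at this; exact absurd this (lt_irrefl _)
    · exact h'
    · have := inc_lt h a ha b h'; rw [hab] at this; exact absurd this (lt_irrefl _)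
  have hne : ∀ i < k, ∀ l < k, l ≠ i →
      (w l, w (l + 1)) ≠ e i ∧ (w (l + 1), w l) ≠ e i := by
    intro i hi l hl hli
    constructor <;> intro hh <;> rcases he i with h' | h' <;> rw [h', Prod.mk.injEq] at hh <;>
      have a1 := hinj _ (by omega) _ (by omega) hh.1 <;>
      have a2 := hinj _ (by omega) _ (by omega) hh.2 <;> omega
  have hex : ∃ i < k, e i ∉ F := by
    by_contra hc
    push Not at hc
    have := Finset.card_le_card_of_injOn e (s := Finset.range k) (t := F)
      (fun i hi => hc i (mem_range.1 (mem_coe.1 hi)))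
      (by
        intro a ha b hb hab
        by_contra hn
        have ha' := mem_range.1 (mem_coe.1 ha)
        have hb' := mem_range.1 (mem_coe.1 hb)
        have := hne b hb' a ha' hn
        rcases he a with h' | h'
        · exact this.1 (h'.symm.trans hab)
        · exact this.2 (h'.symm.trans hab))
    rw [card_range] at this
    omega
  obtain ⟨i, hi, hiF⟩ := hex
  have hF : (F : Set (V × V)) ⊆ E \ {e i} := fun x hx =>
    ⟨h2 hx, fun hxe => hiF (Set.mem_singleton_iff.1 hxe ▸ mem_coe.1 hx)⟩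
  have hE' : ∀ l < k, l ≠ i →
      (w l, w (l + 1)) ∈ E \ {e i} ∨ (w (l + 1), w l) ∈ E \ {e i} := by
    intro l hl hli
    rcases hE l hl with h' | h'
    · exact Or.inl ⟨h', (hne i hi l hl hli).1⟩
    · exact Or.inr ⟨h', (hne i hi l hl hli).2⟩
  have s1 := wk_seg (E := E \ {e i}) w 0 i (fun l _ hl => hE' l (by omega) (by omega))
  have s2 := wk_seg (E := E \ {e i}) w (i + 1) (k - (i + 1))
    (fun l h1 hl => hE' l (by omega) (by omega))
  rw [zero_add] at s1
  rw [show i + 1 + (k - (i + 1)) = k by omega] at s2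
  have s3 : Wk (E \ {e i}) (2 * k) (w i) (w (i + 1)) :=
    ((s1.symm.trans (h3.sub hF)).trans s2.symm).mono (by omega)
  apply hG (e i) (heE i hi)
  rcases he i with h' | h'
  · have h1 : (e i).1 = w i := by rw [h']
    have h2 : (e i).2 = w (i + 1) := by rw [h']
    rw [h1, h2]; exact s3
  · have h1 : (e i).1 = w (i + 1) := by rw [h']
    have h2 : (e i).2 = w i := by rw [h']
    rw [h1, h2]; exact s3.symm

lemma roy {V : Type} (G : SimpleGraph V) (π : V → ℝ) (hπ : Function.Injective π) (K : ℕ)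
    (hno : ∀ w, ¬ IncPath G π (K + 1) w) :
    ∃ c : V → Fin (K + 1), ∀ u v, G.Adj u v → c u ≠ c v := by
  classical
  let P : V → ℕ → Prop := fun v j => ∃ w, IncPath G π j w ∧ w j = v
  have hP0 : ∀ v, P v 0 := fun v => ⟨fun _ => v, fun i hi => absurd hi (by omega), rfl⟩
  have hst : ∀ u v j, G.Adj u v → π u < π v → P u j → P v (j + 1) := by
    rintro u v j huv hlt ⟨w, hw, rfl⟩
    refine ⟨fun i => if i ≤ j then w i else v, ?_, by simp⟩
    intro i hi
    by_cases h : i < j
    · simp only [show i ≤ j by omega, show i + 1 ≤ j by omega, if_true]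
      exact hw i h
    · have : i = j := by omega
      subst this
      simp only [le_refl, if_true, show ¬ (i + 1 ≤ i) by omega, if_false]
      exact ⟨huv, hlt⟩
  have key : ∀ u v, G.Adj u v → π u < π v →
      Nat.findGreatest (P u) K < Nat.findGreatest (P v) K := by
    intro u v huv hlt
    have h1 : P u (Nat.findGreatest (P u) K) := Nat.findGreatest_spec (Nat.zero_le K) (hP0 u)
    have h2 := hst u v _ huv hlt h1
    have h3 : Nat.findGreatest (P u) K ≤ K := Nat.findGreatest_le K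
    rcases h3.lt_or_eq with h4 | h4
    · exact Nat.le_findGreatest h4 h2
    · rw [h4] at h2
      obtain ⟨w, hw, -⟩ := h2
      exact absurd hw (hno w)
  refine ⟨fun v => ⟨Nat.findGreatest (P v) K, Nat.lt_succ_of_le (Nat.findGreatest_le K)⟩, ?_⟩
  intro u v huv hc
  have hc' : Nat.findGreatest (P u) K = Nat.findGreatest (P v) K := congrArg Fin.val hc
  rcases lt_trichotomy (π u) (π v) with h | h | h
  · have := key u v huv h; omega
  · exact huv.ne (hπ h)
  · have := key v u huv.symm h; omega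

lemma edist_seg {V : Type} {G : SimpleGraph V} {π : V → ℝ} {j : ℕ} {w : ℕ → V}
    (h : IncPath G π j w) (a : ℕ) : ∀ t, a + t ≤ j → G.edist (w a) (w (a + t)) ≤ t := by
  intro t
  induction t with
  | zero => intro _; simp
  | succ t ih =>
    intro ht
    have h1 := ih (by omega)
    have h2 : G.edist (w (a + t)) (w (a + t + 1)) = 1 :=
      SimpleGraph.edist_eq_one_iff_adj.2 (h (a + t) (by omega)).1
    calc G.edist (w a) (w (a + (t + 1)))
        ≤ G.edist (w a) (w (a + t)) + G.edist (w (a + t)) (w (a + t + 1)) :=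
          SimpleGraph.edist_triangle
      _ ≤ t + 1 := by rw [h2]; gcongr
      _ = ((t + 1 : ℕ) : ℕ∞) := by push_cast; rfl

lemma triv (n : ℕ) (G : SimpleGraph (Fin n)) :
    IsDiamOrdering G (fun v => ((v : ℕ) : ℝ)) n := by
  refine ⟨fun a b h => Fin.ext (Nat.cast_injective (R := ℝ) h), ?_⟩
  intro j w hw
  have hj : ∀ b ≤ j, b ≤ (w b : ℕ) := by
    intro b
    induction b with
    | zero => intro _; omega
    | succ b ih =>
      intro hb
      have h1 := ih (by omega)
      have h2 : ((w b : ℕ) : ℝ) < ((w (b + 1) : ℕ) : ℝ) := (hw b (by omega)).2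
      have h3 : (w b : ℕ) < (w (b + 1) : ℕ) := by exact_mod_cast h2
      omega
  have hjn : j ≤ n := (hj j le_rfl).trans (w j).2.le
  have main : ∀ a b, a ≤ b → b ≤ j → G.edist (w a) (w b) ≤ n := by
    intro a b hab hb
    have := edist_seg hw a (b - a) (by omega)
    rw [show a + (b - a) = b by omega] at this
    exact this.trans (by exact_mod_cast (by omega : b - a ≤ n))
  intro a ha b hb
  rcases le_total a b with h | h
  · exact main a b h hb
  · rw [SimpleGraph.edist_comm]; exact main b a h ha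

lemma explicit (n k : ℕ) (hk : 1 ≤ k) (hn : 4 * k * (32 * k ^ 3 + 1) ^ (2 * k) ≤ n) : k ≤ D n := by
  obtain ⟨K, rfl⟩ : ∃ K, k = K + 1 := ⟨k - 1, by omega⟩
  by_contra hlt
  push Not at hlt
  have hne : {d | ∀ G : SimpleGraph (Fin n), ∃ π : Fin n → ℝ, IsDiamOrdering G π d}.Nonempty :=
    ⟨n, fun G => ⟨_, triv n G⟩⟩
  have hmem := Nat.sInf_mem hne
  obtain ⟨E, hE, hc⟩ := exists_graph' K (2 * (K + 1))
  have hle : 2 * (K + 1) * (2 * (32 * (K + 1) ^ 3 + 1) ^ (2 * (K + 1))) ≤ n := by
    refine le_trans (le_of_eq ?_) hn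
    ring
  have hf : Function.Injective (Fin.castLE hle) := Fin.castLE_injective hle
  have hE' := gir_push _ hf E hE
  set E' := Prod.map (Fin.castLE hle) (Fin.castLE hle) '' E with hE'def
  obtain ⟨π, hπ, hd⟩ := hmem (SimpleGraph.fromRel (fun a b => (a, b) ∈ E'))
  have hno : ∀ w, ¬ IncPath (SimpleGraph.fromRel (fun a b => (a, b) ∈ E')) π (K + 1) w := by
    intro w hw
    have h1 := hd _ w hw 0 (by omega) (K + 1) le_rfl
    change _ ≤ ((D n : ℕ) : ℕ∞) at h1
    have h2 : (SimpleGraph.fromRel (fun a b => (a, b) ∈ E')).edist (w 0) (w (K + 1)) ≠ ⊤ :=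
      ne_top_of_le_ne_top (ENat.natCast_ne_top _) h1
    obtain ⟨p, hp⟩ := SimpleGraph.exists_walk_of_edist_ne_top h2
    rw [← hp] at h1
    have h3 : p.length ≤ D n := by exact_mod_cast h1
    exact geod hE' hw (j := p.length) (by omega) (wk_of_walk p)
  obtain ⟨c, hcc⟩ := roy _ π hπ K hno
  obtain ⟨e, he, hce⟩ := hc (fun v => c (Fin.castLE hle v))
  refine hcc _ _ ?_ hce
  rw [SimpleGraph.fromRel_adj]
  refine ⟨fun h => ?_, Or.inl ⟨e, he, rfl⟩⟩
  have h12 : e.1 = e.2 := hf h
  exact hE e he (h12 ▸ .refl _ _)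

lemma bound (k : ℕ) (hk : 4 ≤ k) : 4 * k * (32 * k ^ 3 + 1) ^ (2 * k) ≤ k ^ (13 * k) := by
  have h1 : 32 * k ^ 3 + 1 ≤ k ^ 6 := by
    have a : 64 ≤ k ^ 3 := le_trans (by norm_num) (Nat.pow_le_pow_left hk 3)
    have : k ^ 6 = k ^ 3 * k ^ 3 := by ring
    nlinarith
  have h2 : 4 * k ≤ k ^ k := by
    calc 4 * k ≤ k * k := Nat.mul_le_mul_right k hk
      _ = k ^ 2 := by ring
      _ ≤ k ^ k := Nat.pow_le_pow_right (by omega) (by omega)
  calc 4 * k * (32 * k ^ 3 + 1) ^ (2 * k) ≤ k ^ k * (k ^ 6) ^ (2 * k) :=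
        Nat.mul_le_mul h2 (Nat.pow_le_pow_left h1 _)
    _ = k ^ (13 * k) := by rw [← pow_mul, ← pow_add]; congr 1; ring

lemma asym : ∀ᶠ n : ℕ in Filter.atTop,
    Real.log n / (26 * Real.log (Real.log n)) ≤ (D n : ℝ) := by
  have t1 : Filter.Tendsto (fun n : ℕ => Real.log n) Filter.atTop Filter.atTop :=
    Real.tendsto_log_atTop.comp tendsto_natCast_atTop_atTop
  have e1 : ∀ᶠ x : ℝ in Filter.atTop, Real.log x ≤ x / 104 := by
    have := Real.isLittleO_log_id_atTop.bound (show (0 : ℝ) < 1 / 104 by norm_num)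
    filter_upwards [this, Filter.eventually_ge_atTop (1 : ℝ)] with x hx h1
    rw [Real.norm_eq_abs, Real.norm_eq_abs, id, abs_of_nonneg (Real.log_nonneg h1),
      abs_of_nonneg (by linarith)] at hx
    linarith
  filter_upwards [t1.eventually e1, t1.eventually (Filter.eventually_ge_atTop (3 : ℝ)),
    Filter.eventually_ge_atTop 1] with n h1 h2 h3
  set x := Real.log n with hx
  have hl : 1 ≤ Real.log x := by
    rw [Real.le_log_iff_exp_le (by linarith)]
    exact (Real.exp_one_lt_d9.le.trans (by norm_num)).trans h2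
  set y := x / (13 * Real.log x) with hy
  have hy8 : 8 ≤ y := by
    rw [hy, le_div_iff₀ (by positivity)]; linarith
  have hyx : y ≤ x := by
    rw [hy, div_le_iff₀ (by positivity)]; nlinarith
  set k := ⌊y⌋₊ with hk
  have hk4 : 4 ≤ k := Nat.le_floor (by push_cast; linarith)
  have hky : (k : ℝ) ≤ y := Nat.floor_le (by linarith)
  have hk0 : (0 : ℝ) < k := by exact_mod_cast (by omega : 0 < k)
  have hkn : k ^ (13 * k) ≤ n := by
    have a : Real.log ((k : ℝ) ^ (13 * k)) ≤ Real.log n := by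
      rw [Real.log_pow]
      have b : Real.log k ≤ Real.log x := Real.log_le_log hk0 (hky.trans hyx)
      have c : 0 ≤ Real.log k := Real.log_nonneg (by exact_mod_cast (by omega : 1 ≤ k))
      have d : y * (13 * Real.log x) = x := by rw [hy]; field_simp
      push_cast
      calc 13 * (k : ℝ) * Real.log k ≤ 13 * y * Real.log x := by gcongr
        _ = x := by linarith
    have n0 : (0 : ℝ) < n := by exact_mod_cast h3
    rw [Real.log_le_log_iff (by positivity) n0] at a
    exact_mod_cast a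
  have hD := explicit n k (by omega) ((bound k hk4).trans hkn)
  have hD' : (k : ℝ) ≤ D n := by exact_mod_cast hD
  have hlt : y < k + 1 := Nat.lt_floor_add_one y
  have : x / (26 * Real.log x) = y / 2 := by rw [hy]; field_simp; ring
  rw [this]
  linarith

theorem result :
    (∀ n k : ℕ, 1 ≤ k → 4 * k * (32 * k ^ 3 + 1) ^ (2 * k) ≤ n → k ≤ D n) ∧
    ∃ n₀ : ℕ, ∀ n ≥ n₀, Real.log n / (26 * Real.log (Real.log n)) ≤ (D n : ℝ) :=
  ⟨explicit, Filter.eventually_atTop.1 asym⟩

end Pool.Agent.Results.MP_4a087e_lc.Lower
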